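import Pool.Agent.K3h46.HP.Stm4

/-! Brick POLE of the project HP2 (helper46, MP_868bb7_ag): an idempotent polynomial (helper62). -/

set_option autoImplicit false

open Polynomial

namespace Pool.Agent.K3h62.HP

open Pool.Agent.K3h46.HP

theorem t_PolE : StmPolE := by
  intro P hP hX
  have hP0 : P ≠ 0 := hP.ne_zero
  obtain ⟨Q, hQ, hnd⟩ := exists_eq_pow_rootMultiplicity_mul_and_not_dvd P hP0 0
  have ha : 0 < P.rootMultiplicity 0 := by
    rw [rootMultiplicity_pos hP0, IsRoot.def]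
    exact (X_dvd_iff.1 hX).symm ▸ (coeff_zero_eq_eval_zero P).symm.trans (X_dvd_iff.1 hX)
  rw [C_0, sub_zero] at hQ hnd
  generalize P.rootMultiplicity 0 = a at hQ ha
  have hc : IsCoprime ((X : ℚ[X]) ^ a) Q := by
    refine IsCoprime.pow_left ?_
    exact (prime_X.irreducible.coprime_iff_not_dvd).2 hnd
  obtain ⟨u, v, huv⟩ := hc
  refine ⟨u * X ^ a, a, ha, (dvd_pow_self X ha.ne').mul_left u, ?_, ?_⟩
  · refine ⟨-(u * v), ?_⟩
    rw [hQ]
    linear_combination (u * X ^ a) * huv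
  · refine ⟨-v, ?_⟩
    rw [hQ]
    linear_combination X ^ a * huv

end Pool.Agent.K3h62.HP
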